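import Pool.Agent.FS.TopThree.Pos
import Pool.Agent.FS.TopThree.Neg

namespace Pool.Agent.Lib.MP_ee20a5_al.Variants.TopThree

open Pool.Agent.FS.TopThree

/-- For consecutive indices `i`, `j` of `Fin n`, the ratio bound holds at `i` for all rigid
sorted rational `n`-tuples exactly when at most three indices lie above `i`. -/
theorem result (n : ℕ) (i j : Fin n) (hij : j.val = i.val + 1) :
    (∀ x : Fin n → ℚ,
      (∀ y : Fin n → ℚ, (∀ a, x a = 1 → y a = 1) →
        (∀ a b c, x a + x b = x c → y a + y b = y c) → y = x) →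
      (∀ a b, a ≤ b → |x a| ≤ |x b|) → 1 ≤ |x i| → |x j| ≤ 2 * |x i|) ↔ n ≤ i.val + 4 := by
  obtain ⟨i, hi⟩ := i
  obtain ⟨j, hj⟩ := j
  simp only at hij
  subst hij
  constructor
  · intro h
    by_contra hn
    have hn' : i + 4 < n := not_le.mp hn
    have := h (fun t : Fin n => w i t) (fun y h1 h2 => w_rigid hn' y h1 h2)
      (fun a b hab => w_mono (Fin.le_def.mp hab)) (by simp [w_le])
    simp only [w_one, w_le le_rfl] at this
    norm_num at this
  · intro hn x hr hs h1
    exact pos hj hn x hr hs h1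

end Pool.Agent.Lib.MP_ee20a5_al.Variants.TopThree
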