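import Mathlib

set_option autoImplicit false

namespace Pool.Agent.Results.MP_ee20a5_al.UnboundedGap

/-- The tuple `(1, L, L+1, ..., 2L)` of length `L + 2`. -/
private def tup (L : ℕ) : Fin (L + 2) → ℚ := fun i => if i.val = 0 then 1 else (L : ℚ) + i.val - 1

/-- For every constant `C` there is a rigid rational tuple, sorted by absolute value, with an
index `i` such that `1 ≤ |x i|` and `|x (i+1)| > C * |x i|`.  The case `C = 2` is the negation
of the question. -/
theorem result (C : ℚ) :
    ∃ n : ℕ, 2 ≤ n ∧ ∃ x : Fin n → ℚ,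
      (∀ y : Fin n → ℚ, (∀ i, x i = 1 → y i = 1) →
        (∀ i j k, x i + x j = x k → y i + y j = y k) → y = x) ∧
      (∀ i j, i ≤ j → |x i| ≤ |x j|) ∧
      ∃ i j : Fin n, j.val = i.val + 1 ∧ 1 ≤ |x i| ∧ C * |x i| < |x j| := by
  obtain ⟨L, hL⟩ := exists_nat_gt (max C 1)
  have hLC : C < L := lt_of_le_of_lt (le_max_left _ _) hL
  have hL1 : (1 : ℚ) < L := lt_of_le_of_lt (le_max_right _ _) hL
  have hpos : ∀ i, 0 < tup L i := by
    intro i
    unfold tup
    split_ifs
    · norm_num
    · have : (0 : ℚ) ≤ i.val := Nat.cast_nonneg _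
      linarith
  refine ⟨L + 2, by omega, tup L, ?_, ?_, ⟨0, by omega⟩, ⟨1, by omega⟩, rfl, ?_, ?_⟩
  · intro y h1 hadd
    have hy0 : y ⟨0, by omega⟩ = 1 := h1 _ (by simp [tup])
    have hstep : ∀ k : ℕ, ∀ hk : k + 1 < L + 2,
        y ⟨k + 1, hk⟩ = y ⟨1, by omega⟩ + k := by
      intro k
      induction k with
      | zero => intro hk; simp
      | succ k ih =>
        intro hk
        have h := hadd ⟨0, by omega⟩ ⟨k + 1, by omega⟩ ⟨k + 1 + 1, hk⟩ (by
          simp only [tup]
          simp
          ring)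
        rw [← h, hy0, ih (by omega)]
        push_cast
        ring
    have hdbl := hadd ⟨1, by omega⟩ ⟨1, by omega⟩ ⟨L + 1, by omega⟩ (by
      simp only [tup]
      simp
      ring)
    rw [hstep L (by omega)] at hdbl
    have hy1 : y ⟨1, by omega⟩ = L := by linarith
    funext i
    obtain ⟨i, hi⟩ := i
    cases i with
    | zero => rw [hy0]; simp [tup]
    | succ k =>
      rw [hstep k hi, hy1]
      simp only [tup]
      simp
      ring
  · intro i j hij
    rw [abs_of_pos (hpos i), abs_of_pos (hpos j)]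
    have hij' : i.val ≤ j.val := hij
    have hq : (i.val : ℚ) ≤ j.val := by exact_mod_cast hij'
    unfold tup
    split_ifs with h1 h2 h2
    · exact le_rfl
    · have : (1 : ℚ) ≤ j.val := by exact_mod_cast Nat.one_le_iff_ne_zero.mpr h2
      linarith
    · omega
    · linarith
  · simp [tup]
  · rw [abs_of_pos (hpos _), abs_of_pos (hpos _)]
    simp [tup, hLC]

end Pool.Agent.Results.MP_ee20a5_al.UnboundedGap
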